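import Pool.Agent.Helper68.SG2.GoalsE
import Pool.Agent.Helper86.BL.GHN

set_option autoImplicit false

namespace Pool.Agent.Helper57.SG2

open WeierstrassCurve Height
open Pool.Agent.Helper29.BL Pool.Agent.Helper42.SG Pool.Agent.Helper68.SG2

theorem t_FACX (h1 : GHE) (h2 : GHN) (h3 : NISO) : Pool.Agent.Helper68.SG2.FACX := by
  intro K _ _ _ W hW Γ hΓ
  rcases hW with hW | rfl
  · obtain ⟨H, c₀, hG, hP⟩ := h1 K W Γ hΓ
    refine ⟨false, H, xc, ps, c₀, ⟨hG.nonneg, hG.neg, hG.tri, ?_, hG.near, ?_, ?_⟩, hP⟩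
    · intro n P
      rw [hG.mul]
      simp
    · intro _
      exact ⟨hW, fun P => ⟨rfl, rfl⟩⟩
    · intro h
      exact absurd h (by simp)
  · obtain ⟨ψ, hψ⟩ := h3 K
    obtain ⟨H, c₀, hG, hP⟩ := h2 K Γ hΓ
    obtain ⟨C, hC⟩ := Pool.Agent.Helper86.BL.near_aux (K := K)
    have φadd : ∀ P Q, ((ψ (P + Q)).toMul : K) = ((ψ P).toMul : K) * ((ψ Q).toMul : K) := by
      intro P Q
      rw [map_add, toMul_add, Units.val_mul]
    have φnsmul : ∀ (n : ℕ) P, ((ψ (n • P)).toMul : K) = ((ψ P).toMul : K) ^ n := by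
      intro n P
      rw [map_nsmul, toMul_nsmul, Units.val_pow_eq_pow_val]
    have near : ∀ P, |2 * logHeight₁ ((ψ P).toMul : K) - hx P| ≤ |C| := by
      intro P
      by_cases hP0 : P = 0
      · subst hP0
        have e1 : ((ψ 0).toMul : K) = 1 := by
          rw [map_zero, toMul_zero, Units.val_one]
        have e2 : hx (0 : (nodal K).Point) = 0 := by
          unfold hx
          rw [xc_zero, logHeight₁_zero]
        rw [e1, logHeight₁_one, e2]
        simp
      · obtain ⟨h4, h5⟩ := hψ P hP0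
        unfold hx
        rw [h5]
        exact (hC _ (Units.ne_zero _) h4).trans (le_abs_self C)
    have hH : ∀ P, H P = 2 * logHeight₁ ((ψ P).toMul : K) := by
      intro P
      by_contra hne
      have hpos : 0 < |H P - 2 * logHeight₁ ((ψ P).toMul : K)| := abs_pos.2 (sub_ne_zero.2 hne)
      obtain ⟨n, hn⟩ := exists_nat_gt ((c₀ + |C|) / |H P - 2 * logHeight₁ ((ψ P).toMul : K)|)
      rw [div_lt_iff₀ hpos] at hn
      have h4 := hG.near (n • P)
      have h5 := near (n • P)
      rw [hG.mul, pow_one] at h4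
      rw [φnsmul, logHeight₁_pow] at h5
      have h6 : (n : ℝ) * |H P - 2 * logHeight₁ ((ψ P).toMul : K)| =
          |((n : ℝ) * H P - hx (n • P)) -
            (2 * ((n : ℝ) * logHeight₁ ((ψ P).toMul : K)) - hx (n • P))| := by
        rw [← abs_of_nonneg (Nat.cast_nonneg (α := ℝ) n), ← abs_mul,
          abs_of_nonneg (Nat.cast_nonneg (α := ℝ) n)]
        congr 1
        ring
      have h7 := abs_sub ((n : ℝ) * H P - hx (n • P))
        (2 * ((n : ℝ) * logHeight₁ ((ψ P).toMul : K)) - hx (n • P))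
      linarith
    refine ⟨true, H, fun P => ((ψ P).toMul : K), fun P => (((ψ P).toMul : K))⁻¹, c₀,
      ⟨hG.nonneg, hG.neg, hG.tri, ?_, hG.near, ?_, ?_⟩, hP⟩
    · intro n P
      rw [hG.mul]
      simp
    · intro h
      exact absurd h (by simp)
    · intro _
      exact ⟨φadd, fun P => ⟨Units.ne_zero _, rfl⟩, hψ, hH⟩

end Pool.Agent.Helper57.SG2
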